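import Pool.Agent.R779.HK.Main
import Pool.Agent.J6H7.BD.Sys

set_option autoImplicit false
set_option linter.unusedSectionVars false
set_option linter.unusedVariables false

/-! # Forms over products of Hankel determinantal ideals -/

namespace Pool.Agent.J6H7.HK

open MvPolynomial Pool.Agent.W574.SM Pool.Agent.W574.LM Pool.Agent.H628R4.TP
  Pool.Agent.W574.HS Pool.Agent.TH192.DT Pool.Agent.R852.MX Pool.Agent.R779.HK Pool.Agent.J6H7.BD

variable {T : ℕ} (N : ℕ) (p : Fin T → ℕ)

/-- The choices of one maximal minor of the `p t × (N + 1 - p t)` Hankel matrix for each `t` in the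
group `b`. -/
abbrev GIdx {T B : ℕ} (N : ℕ) (p : Fin T → ℕ) (β : Fin T → Fin B) (b : Fin B) : Type :=
  (t : {t // β t = b}) → HIdx N (p t.1)

/-- The products of the chosen minors: the generators of the product of the ideals `I_{p t}` with
`β t = b`. -/
noncomputable def grp {T B : ℕ} (N : ℕ) (p : Fin T → ℕ) (β : Fin T → Fin B) (b : Fin B)
    (J : GIdx N p β b) : MvPolynomial (Fin N) ℂ :=
  ∏ t : {t // β t = b}, hankel N (p t.1) (J t)

/-- `f = ∏ b, F_b ^ a b`, `F_b = ∑_J y_{b,J} ∏_{β t = b} hankel N (p t) (J t)`. -/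
noncomputable def hkForm {T B : ℕ} (N : ℕ) (p : Fin T → ℕ) (β : Fin T → Fin B)
    (a : Fin B → ℕ) : MvPolynomial ((Σ b : Fin B, GIdx N p β b) ⊕ Fin N) ℂ :=
  powProd a (grp N p β)

/-- The multiplicities: `N_d = ∑ t, a (β t) max (p t - d, 0)` along `E_d`, and `a b` along the strict
transform of `F_b = 0`. -/
def hkMul {T B : ℕ} (N : ℕ) (p : Fin T → ℕ) (β : Fin T → Fin B) (a : Fin B → ℕ) :
    Fin ((N + 1) / 2) ⊕ Fin B → ℕ :=
  Sum.elim (fun d => ∑ t, a (β t) * (p t - (d : ℕ))) a

/-- The numbers `ν`: `N - 2 d` for `E_d`, and `1` for the strict transforms. -/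
def hkNu (N B : ℕ) : Fin ((N + 1) / 2) ⊕ Fin B → ℕ :=
  Sum.elim (fun d => N - 2 * (d : ℕ)) fun _ => 1

/-- **The system of the Hankel determinantal ideals.** -/
theorem sysH (hp : ∀ t, 2 * p t < N) :
    RootSys (σ := Fin N) (κ := fun t => HIdx N (p t)) (fun t => hankel N (p t))
      (fun d : Fin ((N + 1) / 2) => N - 2 * (d : ℕ)) (fun d t => p t - (d : ℕ)) where
  ne := fun t => hankel_ne N (p t) (hp t)
  pos := fun d => by
    have := d.2
    show 0 < N - 2 * (d : ℕ)
    omega
  roots := fun {τ} _ _ π b H hH hb d l hl => by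
    have h1 : ∑ x : τ, 1 * (p (π x) - (d : ℕ)) = ∑ x, (p (π x) - (d : ℕ)) :=
      Finset.sum_congr rfl fun x _ => one_mul _
    have h2 := ideal_roots N d (fun x => p (π x)) (fun _ => 1) (fun x => hp (π x)) b H hH
      (by
        refine locEq_reindex (?_ : ((q : Σ t : τ, Fin 1) → HIdx N (p (π q.1))) ≃
          ((x : τ) → HIdx N (p (π x)))) H _ _ ?_ b hb
        · exact
            { toFun := fun J x => J ⟨x, 0⟩
              invFun := fun J q => J q.1
              left_inv := fun J => by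
                funext q
                obtain ⟨x, i⟩ := q
                obtain rfl : i = 0 := Subsingleton.elim _ _
                rfl
              right_inv := fun J => rfl }
        · intro J
          change ∏ x : τ, hankel N (p (π x)) (J ⟨x, 0⟩)
            = ∏ q : Σ t : τ, Fin 1, hankel N (p (π q.1)) (J q)
          rw [Fintype.prod_sigma]
          exact Finset.prod_congr rfl fun x _ => by rw [Fin.prod_univ_one]) l
      (by rw [h1]; exact hl)
    rw [h1] at h2
    exact h2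

theorem hkForm_eq {B : ℕ} (β : Fin T → Fin B) (a : Fin B → ℕ) :
    hkForm N p β a = powProd a (blkF (fun t => hankel N (p t)) β) := rfl

/-- **The motivic form.** -/
theorem hk_mot {B : ℕ} (β : Fin T → Fin B) (a : Fin B → ℕ) (hp : ∀ t, 2 * p t < N) :
    ∃ P : Finset (ℤ × ℤ), (∀ q ∈ P, q.1 < 0 ∧ 0 < q.2 ∧
      (∀ b : Polynomial ℂ, IsBFunction (hkForm N p β a) b → b.eval ((q.1 : ℂ) / q.2) = 0) ∧
      ∀ b : Polynomial ℂ, IsLocalBFunction (hkForm N p β a) b →
        b.eval ((q.1 : ℂ) / q.2) = 0) ∧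
    ∀ (R : Type) [CommRing R] (u : Rˣ) (c : Finset {i // 0 < hkMul N p β a i} → R),
      dlZ u (hkNu N B) (hkMul N p β a) c ∈ ratU u (P : Set (ℤ × ℤ)) :=
  motX (sysH N p hp) β a

/-- **The topological form.** -/
theorem hk_top {B : ℕ} (β : Fin T → Fin B) (a : Fin B → ℕ) (hp : ∀ t, 2 * p t < N)
    (χ : Finset (Fin ((N + 1) / 2) ⊕ Fin B) → ℤ) (s : ℂ)
    (hs : (topZ (hkNu N B) (hkMul N p β a) χ).denom.eval s = 0) :
    (∀ b : Polynomial ℂ, IsBFunction (hkForm N p β a) b → b.eval s = 0) ∧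
      ∀ b : Polynomial ℂ, IsLocalBFunction (hkForm N p β a) b → b.eval s = 0 :=
  topX (sysH N p hp) β a χ s hs

/-- the roots, local functional equations -/
theorem hk_local {B : ℕ} (β : Fin T → Fin B) (a : Fin B → ℕ) (hp : ∀ t, 2 * p t < N)
    (b : Polynomial ℂ) (hb : IsLocalBFunction (hkForm N p β a) b)
    (i : Fin ((N + 1) / 2) ⊕ Fin B) (l : ℕ) (hl : l < hkMul N p β a i) :
    b.eval (-((hkNu N B i : ℂ) + l) / hkMul N p β a i) = 0 :=
  rootsX_local (sysH N p hp) β a b hb i l hl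

/-- the roots, global functional equations -/
theorem hk_global {B : ℕ} (β : Fin T → Fin B) (a : Fin B → ℕ) (hp : ∀ t, 2 * p t < N)
    (b : Polynomial ℂ) (hb : IsBFunction (hkForm N p β a) b)
    (i : Fin ((N + 1) / 2) ⊕ Fin B) (l : ℕ) (hl : l < hkMul N p β a i) :
    b.eval (-((hkNu N B i : ℂ) + l) / hkMul N p β a i) = 0 :=
  rootsX_global (sysH N p hp) β a b hb i l hl

end Pool.Agent.J6H7.HK
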